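import Pool.Agent.H79.BN.Chk
import Pool.Agent.H93.BL.Basic

/-!
# Non-separation, row C4: decomposition of a closed cone
-/

set_option autoImplicit false

open MeasureTheory Set Filter Topology Pool.Agent.H93.BL Pool.Agent.H79.BN

namespace Pool.Agent.H75.BN

theorem c4 : Pool.Agent.H79.BN.T_C4 := by
  intro g h d hd hgh hgd hdh
  have key : d = ((cr d h / cr g h : ℝ) : ℂ) * g + ((cr g d / cr g h : ℝ) : ℂ) * h := by
    have hne : (cr g h : ℂ) ≠ 0 := by exact_mod_cast hgh.ne
    have h1 : (cr g h : ℂ) * d = (cr d h : ℂ) * g + (cr g d : ℂ) * h := by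
      apply Complex.ext
      · simp only [cr, Complex.add_re, Complex.mul_re, Complex.ofReal_re, Complex.ofReal_im]
        ring
      · simp only [cr, Complex.add_im, Complex.mul_im, Complex.ofReal_re, Complex.ofReal_im]
        ring
    push_cast
    field_simp
    linear_combination h1
  have hα : 0 ≤ cr d h / cr g h := div_nonneg_of_nonpos hdh hgh.le
  have hβ : 0 ≤ cr g d / cr g h := div_nonneg_of_nonpos hgd hgh.le
  rcases hα.eq_or_lt with h1 | h1
  · rcases hβ.eq_or_lt with h2 | h2
    · exfalso
      apply hd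
      rw [key, ← h1, ← h2]
      simp
    · refine Or.inr (Or.inl ⟨_, h2, ?_⟩)
      rw [← h1, Complex.ofReal_zero, zero_mul, zero_add] at key
      exact key
  · rcases hβ.eq_or_lt with h2 | h2
    · refine Or.inl ⟨_, h1, ?_⟩
      rw [← h2, Complex.ofReal_zero, zero_mul, add_zero] at key
      exact key
    · exact Or.inr (Or.inr ⟨_, _, h1, h2, key⟩)

end Pool.Agent.H75.BN
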