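import Pool.Agent.H79.BN.Targets
import Pool.Agent.H93.BL.Basic

/-!
# Non-separation, row W10: comparison of the lengths of two orbits with the same code
-/

set_option autoImplicit false

open MeasureTheory Set Filter Topology Pool.Agent.H93.BL Pool.Agent.H79.BN

namespace Pool.Agent.H75.BN

section

variable {ι : Type} (P : Polygon ι)

theorem aff_pos (z : ι × ℝ × ℝ) : P.aff z.1 (P.pos z) = P.pos z := P.aff_line z.1 z.2.1

theorem aff_dist (i : ι) (x y : ℂ) : dist (P.aff i x) (P.aff i y) = dist x y := by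
  rw [dist_eq_norm, dist_eq_norm]
  have h : P.aff i x = P.aff i y + P.refl i (x - y) := by
    rw [← P.aff_add, add_sub_cancel]
  rw [h, add_sub_cancel_left, P.norm_refl]

/-- one step of an orbit after the reflection in the side which is hit -/
theorem aff_step (f : ℕ → ι × ℝ × ℝ) (N : ℕ) (h : P.Step (f N) (f (N + 1))) (t : ℝ) :
    P.aff (f (N + 1)).1 (P.pos (f (N + 1)) + (t : ℂ) * P.dir (f (N + 1))) =
      P.pos (f N) + ((dist (P.pos (f N)) (P.pos (f (N + 1))) + t : ℝ) : ℂ) * P.dir (f N) := by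
  obtain ⟨-, -, T, hT, hpos, -, hdir⟩ := h
  have hd : dist (P.pos (f N)) (P.pos (f (N + 1))) = T := by
    rw [hpos, dist_comm, dist_eq_norm, add_sub_cancel_left, norm_mul, P.norm_dir, mul_one,
      Complex.norm_real, Real.norm_of_nonneg (le_of_lt hT)]
  rw [hd, P.aff_add_smul, aff_pos, hdir, P.refl_refl, hpos]
  push_cast
  ring

/-- the unfolding -/
theorem unfolding (f g : ℕ → ι × ℝ × ℝ) : ∀ N : ℕ, (∀ n < N, P.Step (f n) (f (n + 1))) →
    (∀ n < N, P.Step (g n) (g (n + 1))) → (∀ n ≤ N, (f n).1 = (g n).1) →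
    ∃ G : ℂ → ℂ, (∀ x y, dist (G x) (G y) = dist x y) ∧
      (∀ t : ℝ, G (P.pos (f N) + (t : ℂ) * P.dir (f N)) =
        P.pos (f 0) + ((plen P f N + t : ℝ) : ℂ) * P.dir (f 0)) ∧
      (∀ t : ℝ, G (P.pos (g N) + (t : ℂ) * P.dir (g N)) =
        P.pos (g 0) + ((plen P g N + t : ℝ) : ℂ) * P.dir (g 0)) := by
  intro N
  induction N with
  | zero =>
    intro _ _ _
    refine ⟨id, fun _ _ => rfl, fun t => ?_, fun t => ?_⟩ <;>
    · unfold plen
      rw [Finset.sum_range_zero, zero_add]
      rfl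
  | succ N ih =>
    intro hf hg hc
    obtain ⟨G, h1, h2, h3⟩ := ih (fun n hn => hf n (by omega)) (fun n hn => hg n (by omega))
      (fun n hn => hc n (by omega))
    refine ⟨fun y => G (P.aff (f (N + 1)).1 y), fun x y => ?_, fun t => ?_, fun t => ?_⟩
    · rw [h1, aff_dist]
    · have h4 := aff_step P f N (hf N (by omega)) t
      simp only [h4, h2]
      unfold plen
      rw [Finset.sum_range_succ, add_assoc]
    · have h4 := aff_step P g N (hg N (by omega)) t
      rw [← hc (N + 1) (le_refl _)] at h4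
      simp only [h4, h3]
      unfold plen
      rw [Finset.sum_range_succ, add_assoc]

end

theorem w10 : T_W10 := by
  intro ι P f g N h0 hf hg hc
  obtain ⟨G, h1, h2, h3⟩ := unfolding P f g N hf hg hc
  have h4 := h2 0
  have h5 := h3 0
  rw [Complex.ofReal_zero, zero_mul, add_zero, add_zero] at h4 h5
  rw [← h1, h4, h5, h0, dist_eq_norm, add_sub_add_left_eq_sub]

end Pool.Agent.H75.BN
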